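import Mathlib

set_option autoImplicit false

namespace Pool.Agent.Results.MP_604f1e_lc.ClassRegularIff

/-- `theta A n m` is the monoid congruence `θ_{n,m}` on `A*`: the smallest congruence
containing all pairs `(x ^ n, x ^ (n + m))`. -/
def theta (A : Type) (n m : ℕ) : Con (FreeMonoid A) :=
  conGen (fun a b : FreeMonoid A => ∃ x : FreeMonoid A, a = x ^ n ∧ b = x ^ (n + m))

/-! ### Monoids satisfying `x ^ (m + 1) = x` -/

section Abstract

variable {S : Type} [Monoid S] {m : ℕ}

/-- Green's relation R, written out. -/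
def RR (x y : S) : Prop := (∃ u, x * u = y) ∧ (∃ v, y * v = x)

/-- Green's relation L, written out. -/
def LL (x y : S) : Prop := (∃ u, u * x = y) ∧ (∃ v, v * y = x)

theorem RR.symm {x y : S} (h : RR x y) : RR y x := ⟨h.2, h.1⟩

theorem RR.trans {x y z : S} (h : RR x y) (h' : RR y z) : RR x z := by
  obtain ⟨⟨u, hu⟩, ⟨v, hv⟩⟩ := h
  obtain ⟨⟨u', hu'⟩, ⟨v', hv'⟩⟩ := h'
  refine ⟨⟨u * u', ?_⟩, ⟨v' * v, ?_⟩⟩
  · rw [← mul_assoc, hu, hu']
  · rw [← mul_assoc, hv', hv]

theorem LL.symm {x y : S} (h : LL x y) : LL y x := ⟨h.2, h.1⟩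

theorem LL.trans {x y z : S} (h : LL x y) (h' : LL y z) : LL x z := by
  obtain ⟨⟨u, hu⟩, ⟨v, hv⟩⟩ := h
  obtain ⟨⟨u', hu'⟩, ⟨v', hv'⟩⟩ := h'
  refine ⟨⟨u' * u, ?_⟩, ⟨v * v', ?_⟩⟩
  · rw [mul_assoc, hu, hu']
  · rw [mul_assoc, hv', hv]

theorem pow_idem_left (hS : ∀ x : S, x ^ (m + 1) = x) (x : S) :
    x ^ m * x = x := by rw [← pow_succ]; exact hS x

theorem pow_idem_right (hS : ∀ x : S, x ^ (m + 1) = x) (x : S) :
    x * x ^ m = x := by rw [← pow_succ']; exact hS x

theorem pow_pow_self (hm : 0 < m) (hS : ∀ x : S, x ^ (m + 1) = x) (x : S) :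
    x ^ m * x ^ m = x ^ m := by
  obtain ⟨k, rfl⟩ : ∃ k, m = k + 1 := ⟨m - 1, by omega⟩
  calc x ^ (k + 1) * x ^ (k + 1) = (x ^ (k + 1) * x) * x ^ k := by
        rw [mul_assoc, ← pow_succ']
    _ = x * x ^ k := by rw [pow_idem_left hS]
    _ = x ^ (k + 1) := by rw [← pow_succ']

/-- Two elements in the same H-class have the same idempotent power. -/
theorem pow_eq (hm : 0 < m) (hS : ∀ x : S, x ^ (m + 1) = x) {x h : S}
    (hr : RR x h) (hl : LL x h) : x ^ m = h ^ m := by
  obtain ⟨⟨u, hu⟩, -⟩ := hr
  obtain ⟨-, ⟨v, hv⟩⟩ := hl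
  have h1 : x ^ m * h = h := by
    rw [← hu, ← mul_assoc, pow_idem_left hS]
  have h2 : x * h ^ m = x := by
    rw [← hv, mul_assoc, pow_idem_right hS]
  obtain ⟨k, rfl⟩ : ∃ k, m = k + 1 := ⟨m - 1, by omega⟩
  have h3 : x ^ (k + 1) * h ^ (k + 1) = h ^ (k + 1) := by
    rw [pow_succ' h k, ← mul_assoc, h1]
  have h4 : x ^ (k + 1) * h ^ (k + 1) = x ^ (k + 1) := by
    rw [pow_succ x k, mul_assoc, h2]
  rw [← h4, h3]

/-- Elements of one H-class `H` are separated by their left quotients of `x₀ ∈ H`. -/
theorem eq_of_mul_pow (hm : 0 < m) (hS : ∀ x : S, x ^ (m + 1) = x) {x₀ x h : S}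
    (hx : RR x x₀ ∧ LL x x₀) (hh : RR h x₀ ∧ LL h x₀)
    (e : h * (x ^ (m - 1) * x₀) = x₀) : h = x := by
  have e1 := pow_eq hm hS hx.1 hx.2
  have e2 := pow_eq hm hS hh.1 hh.2
  obtain ⟨k, rfl⟩ : ∃ k, m = k + 1 := ⟨m - 1, by omega⟩
  simp only [Nat.add_sub_cancel] at e
  have h1 : x₀ * (x₀ ^ k * x) = x := by
    rw [← mul_assoc, ← pow_succ', ← e1, pow_idem_left hS]
  have h2 : h * (x ^ k * x₀) * (x₀ ^ k * x) = h := by
    calc h * (x ^ k * x₀) * (x₀ ^ k * x) = h * x ^ k * ((x₀ * x₀ ^ k) * x) := by
          simp only [mul_assoc]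
      _ = h * x ^ k * x := by rw [← pow_succ', ← e1, pow_idem_left hS]
      _ = h * x ^ (k + 1) := by rw [mul_assoc, ← pow_succ]
      _ = h := by rw [e1, ← e2, pow_idem_right hS]
  rw [← h2, e, h1]

/-- The basic rotation fact: `c p b` lies in the ideal generated by `c b`. -/
theorem drop_mid (hm : 0 < m) (hS : ∀ x : S, x ^ (m + 1) = x) (c p b : S) :
    ∃ s t : S, c * p * b = s * (c * b) * t := by
  obtain ⟨k, rfl⟩ : ∃ k, m = k + 1 := ⟨m - 1, by omega⟩
  refine ⟨(c * p * b) ^ k * c * p * b, (c * b) ^ k * c * p * b, ?_⟩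
  have hbc : b * (c * b) ^ (k + 1) * c = b * c := by
    have : ∀ j : ℕ, b * (c * b) ^ j * c = (b * c) ^ (j + 1) := by
      intro j
      induction j with
      | zero => simp
      | succ j ih =>
        rw [pow_succ (b * c) (j + 1), ← ih, pow_succ]
        simp only [mul_assoc]
    rw [this, hS]
  calc c * p * b = (c * p * b) ^ (k + 1 + 1) := (hS _).symm
    _ = (c * p * b) ^ k * c * p * (b * c) * p * b := by
        rw [pow_succ, pow_succ]; simp only [mul_assoc]
    _ = (c * p * b) ^ k * c * p * (b * (c * b) ^ (k + 1) * c) * p * b := by rw [hbc]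
    _ = _ := by rw [pow_succ' (c * b) k]; simp only [mul_assoc]

/-- A factor of `x` can be appended to `x` without leaving its R-class. -/
theorem append_factor (hm : 0 < m) (hS : ∀ x : S, x ^ (m + 1) = x) (x x₁ u x₂ : S)
    (hx : x = x₁ * u * x₂) : ∃ y, x * u * y = x := by
  obtain ⟨s, t, hst⟩ := drop_mid hm hS x x₁ (u * x₂ * x ^ (m - 1))
  have h1 : x = x * x₁ * (u * x₂ * x ^ (m - 1)) := by
    obtain ⟨k, rfl⟩ : ∃ k, m = k + 1 := ⟨m - 1, by omega⟩
    have h2 : x * x₁ * (u * x₂ * x ^ (k + 1 - 1)) = x * (x₁ * u * x₂) * x ^ k := by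
      simp only [Nat.add_sub_cancel, mul_assoc]
    rw [h2, ← hx, mul_assoc, ← pow_succ', ← pow_succ']
    exact (hS x).symm
  set g' : S := x₂ * x ^ (m - 1) * t with hg'
  set g : S := u * g' with hg
  have h3 : s * x * g = x := by
    conv_rhs => rw [h1, hst]
    rw [hg, hg']; simp only [mul_assoc]
  have h4 : ∀ k : ℕ, s ^ k * x * g ^ k = x := by
    intro k
    induction k with
    | zero => simp
    | succ k ih =>
      calc s ^ (k + 1) * x * g ^ (k + 1) = s ^ k * (s * x * g) * g ^ k := by
            rw [pow_succ s, pow_succ' g]; simp only [mul_assoc]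
        _ = x := by rw [h3, ih]
  have h5 : x * g ^ m = x := by
    calc x * g ^ m = s ^ m * x * g ^ m * g ^ m := by rw [h4]
      _ = s ^ m * x * g ^ m := by rw [mul_assoc, pow_pow_self hm hS]
      _ = x := h4 m
  refine ⟨g' * g ^ (m - 1), ?_⟩
  obtain ⟨k, rfl⟩ : ∃ k, m = k + 1 := ⟨m - 1, by omega⟩
  calc x * u * (g' * g ^ (k + 1 - 1)) = x * (g * g ^ k) := by
        rw [hg]; simp only [Nat.add_sub_cancel, mul_assoc]
    _ = x := by rw [← pow_succ', h5]

variable {A : Type}

/-- Appending a word over the letters of `l` stays in the R-class. -/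
theorem append_word (hm : 0 < m) (hS : ∀ x : S, x ^ (m + 1) = x) (f : A → S)
    (v : List A) : ∀ l : List A, (∀ a ∈ v, a ∈ l) →
    ∃ y, (l.map f).prod * (v.map f).prod * y = (l.map f).prod := by
  induction v with
  | nil => intro l _; exact ⟨1, by simp⟩
  | cons u v ih =>
    intro l hl
    obtain ⟨l₁, l₂, hl12⟩ := List.append_of_mem (hl u (by simp))
    obtain ⟨y2, hy2⟩ := append_factor hm hS (l.map f).prod (l₁.map f).prod (f u)
      (l₂.map f).prod (by rw [hl12]; simp [mul_assoc])
    obtain ⟨y1, hy1⟩ := ih (l ++ [u]) (by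
      intro a ha
      exact List.mem_append_left _ (hl a (by simp [ha])))
    refine ⟨y1 * y2, ?_⟩
    have h1 : ((l ++ [u]).map f).prod = (l.map f).prod * f u := by simp
    rw [h1] at hy1
    calc (l.map f).prod * ((u :: v).map f).prod * (y1 * y2)
        = ((l.map f).prod * f u * (v.map f).prod * y1) * y2 := by
          simp [mul_assoc]
      _ = (l.map f).prod := by rw [hy1, hy2]

theorem RR_append (hm : 0 < m) (hS : ∀ x : S, x ^ (m + 1) = x) (f : A → S)
    (l v : List A) (h : ∀ a ∈ v, a ∈ l) :
    RR ((l.map f).prod * (v.map f).prod) (l.map f).prod := by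
  obtain ⟨y, hy⟩ := append_word hm hS f v l h
  exact ⟨⟨y, hy⟩, ⟨_, rfl⟩⟩

/-- The shortest prefix with full content. -/
theorem exists_prefix (w : List A) (hw : w ≠ []) :
    ∃ (p : List A) (a : A) (v : List A), w = p ++ a :: v ∧ a ∉ p ∧
      ∀ c ∈ w, c ∈ p ++ [a] := by
  classical
  induction w using List.reverseRecOn with
  | nil => exact absurd rfl hw
  | append_singleton w c ih =>
    by_cases hc : c ∈ w
    · have hne : w ≠ [] := by rintro rfl; simp at hc
      obtain ⟨p, a, v, h1, h2, h3⟩ := ih hne
      refine ⟨p, a, v ++ [c], ?_, h2, ?_⟩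
      · rw [h1]; simp
      · intro d hd
        rcases List.mem_append.1 hd with hd | hd
        · exact h3 d hd
        · rw [List.mem_singleton] at hd
          rw [hd]; exact h3 c hc
    · exact ⟨w, c, [], by simp, hc, fun d hd => hd⟩

theorem exists_RR (hm : 0 < m) (hS : ∀ x : S, x ^ (m + 1) = x) (f : A → S)
    (w : List A) (hw : w ≠ []) :
    ∃ (p : List A) (a : A), a ∈ w ∧ (∀ c ∈ p, c ∈ w ∧ c ≠ a) ∧
      RR (w.map f).prod ((p.map f).prod * f a) := by
  obtain ⟨p, a, v, h1, h2, h3⟩ := exists_prefix w hw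
  refine ⟨p, a, by rw [h1]; simp, ?_, ?_⟩
  · intro c hc
    refine ⟨by rw [h1]; simp [hc], ?_⟩
    rintro rfl; exact h2 hc
  · have h4 := RR_append hm hS f (p ++ [a]) v (by
      intro c hc
      exact h3 c (by rw [h1]; simp [hc]))
    have e1 : ((p ++ [a]).map f).prod = (p.map f).prod * f a := by simp
    have e2 : (w.map f).prod = (p.map f).prod * f a * (v.map f).prod := by
      rw [h1]; simp [mul_assoc]
    rw [e1] at h4
    rw [e2]; exact h4

theorem map_op_prod (f : A → S) (l : List A) :
    (l.map (fun a => MulOpposite.op (f a))).prod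
      = MulOpposite.op ((l.reverse.map f).prod) := by
  rw [MulOpposite.op_list_prod]
  congr 1
  rw [List.map_map, ← List.map_reverse, List.reverse_reverse]
  rfl

theorem op_identity (hS : ∀ x : S, x ^ (m + 1) = x) : ∀ x : Sᵐᵒᵖ, x ^ (m + 1) = x := by
  intro x
  have := hS x.unop
  apply MulOpposite.unop_injective
  rw [MulOpposite.unop_pow]; exact this

theorem exists_LL (hm : 0 < m) (hS : ∀ x : S, x ^ (m + 1) = x) (f : A → S)
    (w : List A) (hw : w ≠ []) :
    ∃ (q : List A) (b : A), b ∈ w ∧ (∀ c ∈ q, c ∈ w ∧ c ≠ b) ∧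
      LL (w.map f).prod (f b * (q.map f).prod) := by
  obtain ⟨p, a, h1, h2, h3⟩ := exists_RR (S := Sᵐᵒᵖ) hm (op_identity hS)
    (fun a => MulOpposite.op (f a)) w.reverse (by simpa using hw)
  rw [map_op_prod, map_op_prod, List.reverse_reverse] at h3
  refine ⟨p.reverse, a, by simpa using h1, ?_, ?_⟩
  · intro c hc
    have := h2 c (by simpa using hc)
    exact ⟨by simpa using this.1, this.2⟩
  · obtain ⟨⟨u, hu⟩, ⟨v, hv⟩⟩ := h3
    refine ⟨⟨u.unop, ?_⟩, ⟨v.unop, ?_⟩⟩
    · have := congrArg MulOpposite.unop hu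
      simpa using this
    · have := congrArg MulOpposite.unop hv
      simpa [mul_assoc] using this

theorem LL_append (hm : 0 < m) (hS : ∀ x : S, x ^ (m + 1) = x) (f : A → S)
    (l v : List A) (h : ∀ a ∈ v, a ∈ l) :
    LL ((v.map f).prod * (l.map f).prod) (l.map f).prod := by
  have h3 := RR_append (S := Sᵐᵒᵖ) hm (op_identity hS)
    (fun a => MulOpposite.op (f a)) l.reverse v.reverse (by
      intro a ha; simpa using h a (by simpa using ha))
  rw [map_op_prod, map_op_prod, List.reverse_reverse, List.reverse_reverse] at h3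
  obtain ⟨⟨u, hu⟩, ⟨v', hv⟩⟩ := h3
  refine ⟨⟨u.unop, ?_⟩, ⟨v'.unop, ?_⟩⟩
  · have := congrArg MulOpposite.unop hu
    simpa using this
  · have := congrArg MulOpposite.unop hv
    simpa [mul_assoc] using this

/-- The H-class of `x₀` is finite when the fibre over `x₀` is accepted by a finite automaton. -/
theorem finite_H (hm : 0 < m) (hS : ∀ x : S, x ^ (m + 1) = x) (f : A → S)
    (hsurj : ∀ x : S, ∃ w : List A, (w.map f).prod = x) (x₀ : S)
    (hreg : ∃ (σ : Type) (_ : Fintype σ) (M : DFA A σ),
      M.accepts = {v : List A | (v.map f).prod = x₀}) :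
    {x : S | RR x x₀ ∧ LL x x₀}.Finite := by
  classical
  obtain ⟨σ, _, M, hM⟩ := hreg
  choose g hg using hsurj
  refine Set.Finite.of_finite_image (f := fun x => M.eval (g x)) (Set.toFinite _) ?_
  intro x hx y hy hxy
  have hxm : x ^ m = x₀ ^ m := pow_eq hm hS hx.1 hx.2
  have hmem : g x ++ g (x ^ (m - 1) * x₀) ∈ M.accepts := by
    rw [hM]
    change ((g x ++ g (x ^ (m - 1) * x₀)).map f).prod = x₀
    rw [List.map_append, List.prod_append, hg, hg, ← mul_assoc, ← pow_succ']
    have : m - 1 + 1 = m := by omega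
    rw [this, hxm, pow_idem_left hS]
  have hmem' : g y ++ g (x ^ (m - 1) * x₀) ∈ M.accepts := by
    rw [DFA.mem_accepts] at hmem ⊢
    have e : ∀ u v : List A, M.eval (u ++ v) = M.evalFrom (M.eval u) v := fun u v =>
      DFA.evalFrom_of_append M M.start u v
    rw [e] at hmem ⊢
    rw [← show M.eval (g x) = M.eval (g y) from hxy]
    exact hmem
  rw [hM] at hmem'
  change ((g y ++ g (x ^ (m - 1) * x₀)).map f).prod = x₀ at hmem'
  rw [List.map_append, List.prod_append, hg, hg] at hmem'
  exact (eq_of_mul_pow hm hS hx hy hmem').symm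

/-- Elements of one H-class with the content of `x₀` are separated by `x ↦ x₀ * x * x₀`. -/
theorem sandwich_inj (hm : 0 < m) (hS : ∀ x : S, x ^ (m + 1) = x) (f : A → S)
    (w₀ u v : List A) (hu : ∀ a, a ∈ u ↔ a ∈ w₀)
    (hr : RR (u.map f).prod (v.map f).prod) (hl : LL (u.map f).prod (v.map f).prod)
    (h : (w₀.map f).prod * (u.map f).prod * (w₀.map f).prod
      = (w₀.map f).prod * (v.map f).prod * (w₀.map f).prod) :
    (u.map f).prod = (v.map f).prod := by
  set x := (u.map f).prod with hx
  set y := (v.map f).prod with hy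
  set x₀ := (w₀.map f).prod with hx₀
  set e := x ^ m with he
  have he' : e = y ^ m := pow_eq hm hS hr hl
  -- a word for `e`
  set ew : List A := (List.replicate m u).flatten with hew
  have hewp : (ew.map f).prod = e := by
    rw [hew, he, hx]
    clear_value x y x₀ e
    clear hew ew
    induction m with
    | zero => simp
    | succ k _ =>
      simp [List.map_flatten, List.prod_flatten]
  have hewm : ∀ a, a ∈ ew ↔ a ∈ u := by
    intro a
    rw [hew, List.mem_flatten]
    constructor
    · rintro ⟨l, hl, ha⟩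
      rw [List.mem_replicate] at hl
      rwa [hl.2] at ha
    · intro ha
      exact ⟨u, List.mem_replicate.2 ⟨by omega, rfl⟩, ha⟩
  have hee : e * e = e := pow_pow_self hm hS x
  set z := e * x₀ * e with hz
  have hzr : RR z e := by
    have := RR_append hm hS f ew (w₀ ++ ew) (by
      intro a ha
      rw [List.mem_append] at ha
      rcases ha with ha | ha
      · exact (hewm a).2 ((hu a).2 ha)
      · exact ha)
    rw [List.map_append, List.prod_append, hewp, ← mul_assoc] at this
    exact this
  have hzl : LL z e := by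
    have := LL_append hm hS f ew (ew ++ w₀) (by
      intro a ha
      rw [List.mem_append] at ha
      rcases ha with ha | ha
      · exact ha
      · exact (hewm a).2 ((hu a).2 ha))
    rw [List.map_append, List.prod_append, hewp] at this
    exact this
  have hem : e ^ m = e := by
    obtain ⟨k, rfl⟩ : ∃ k, m = k + 1 := ⟨m - 1, by omega⟩
    have : ∀ j : ℕ, e ^ (j + 1) = e := by
      intro j
      induction j with
      | zero => simp
      | succ j ih => rw [pow_succ, ih, hee]
    exact this k
  have hzm : z ^ m = e := by rw [pow_eq hm hS hzr hzl, hem]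
  have hex : e * x = x := pow_idem_left hS x
  have hxe : x * e = x := pow_idem_right hS x
  have hey : e * y = y := by rw [he']; exact pow_idem_left hS y
  have hye : y * e = y := by rw [he']; exact pow_idem_right hS y
  obtain ⟨k, rfl⟩ : ∃ k, m = k + 1 := ⟨m - 1, by omega⟩
  have key : ∀ t : S, e * t = t → t * e = t → t = z ^ k * e * (x₀ * t * x₀) * e * z ^ k := by
    intro t h1 h2
    have h3 : z ^ (k + 1) * t * z ^ (k + 1) = t := by rw [hzm, h1, h2]
    calc t = z ^ (k + 1) * t * z ^ (k + 1) := h3.symm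
      _ = (z ^ k * z) * t * (z * z ^ k) := by rw [← pow_succ, ← pow_succ']
      _ = z ^ k * (e * x₀ * e) * t * ((e * x₀ * e) * z ^ k) := by rw [← hz]
      _ = z ^ k * e * (x₀ * ((e * t) * e) * x₀) * e * z ^ k := by simp only [mul_assoc]
      _ = _ := by rw [h1, h2]
  rw [key x hex hxe, key y hey hye, h]

end Abstract

/-! ### The monoid `Ext T m` which remembers the blocks between two marks -/

/-- Elements: `base t`, or `mid s g t`, where `g` counts modulo `m` the inner blocks. -/
inductive Ext (T : Type) (m : ℕ) : Type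
  | base (t : T) : Ext T m
  | mid (s : T) (g : T → ZMod m) (t : T) : Ext T m

namespace Ext

variable {T : Type} [Monoid T] {m : ℕ}

open Classical in
/-- The unit vector at `t`. -/
noncomputable def sg (m : ℕ) (t : T) : T → ZMod m := fun s => if s = t then 1 else 0

omit [Monoid T] in
theorem sg_inj (hm : 1 < m) {t t' : T} (h : sg m t = sg m t') : t = t' := by
  by_contra hne
  have : Fact (1 < m) := ⟨hm⟩
  have h5 := congrFun h t
  simp only [sg, if_true, if_neg hne] at h5
  exact one_ne_zero h5

/-- Multiplication on `Ext T m`. -/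
noncomputable def mul : Ext T m → Ext T m → Ext T m
  | base a, base b => base (a * b)
  | base a, mid s g t => mid (a * s) g t
  | mid s g t, base b => mid s g (t * b)
  | mid s g t, mid s' g' t' => mid s (g + sg m (t * s') + g') t'

noncomputable instance : Mul (Ext T m) := ⟨mul⟩

theorem base_mul_base (a b : T) : (base a * base b : Ext T m) = base (a * b) := rfl
theorem base_mul_mid (a s : T) (g : T → ZMod m) (t : T) :
    (base a * mid s g t : Ext T m) = mid (a * s) g t := rfl
theorem mid_mul_base (s : T) (g : T → ZMod m) (t b : T) :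
    (mid s g t * base b : Ext T m) = mid s g (t * b) := rfl
theorem mid_mul_mid (s : T) (g : T → ZMod m) (t s' : T) (g' : T → ZMod m) (t' : T) :
    (mid s g t * mid s' g' t' : Ext T m) = mid s (g + sg m (t * s') + g') t' := rfl

noncomputable instance : Monoid (Ext T m) where
  one := base 1
  mul_assoc := by
    intro a b c
    cases a <;> cases b <;> cases c <;>
      simp only [base_mul_base, base_mul_mid, mid_mul_base, mid_mul_mid, mul_assoc, add_assoc]
  one_mul := by
    intro a
    change base 1 * a = a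
    cases a <;> simp only [base_mul_base, base_mul_mid, one_mul]
  mul_one := by
    intro a
    change a * base 1 = a
    cases a <;> simp only [base_mul_base, mid_mul_base, mul_one]

theorem one_def : (1 : Ext T m) = base 1 := rfl

theorem base_pow (t : T) (k : ℕ) : (base t : Ext T m) ^ k = base (t ^ k) := by
  induction k with
  | zero => simp [one_def]
  | succ k ih => rw [pow_succ, ih, base_mul_base, pow_succ]

theorem mid_pow (s : T) (g : T → ZMod m) (t : T) (k : ℕ) :
    (mid s g t : Ext T m) ^ (k + 1) = mid s (g + k • (sg m (t * s) + g)) t := by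
  induction k with
  | zero => simp
  | succ k ih =>
    rw [pow_succ, ih, mid_mul_mid, succ_nsmul]
    simp only [add_assoc]

theorem identity (hT : ∀ x : T, x ^ (m + 1) = x) (x : Ext T m) : x ^ (m + 1) = x := by
  cases x with
  | base t => rw [base_pow, hT]
  | mid s g t =>
    rw [mid_pow]
    have : m • (sg m (t * s) + g) = 0 := by
      funext i
      simp
    rw [this, add_zero]

end Ext

section Words

variable {A : Type} {m : ℕ}

theorem theta_rel (x : FreeMonoid A) : theta A 1 m x (x ^ (m + 1)) := by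
  have : theta A 1 m (x ^ 1) (x ^ (1 + m)) := ConGen.Rel.of _ _ ⟨x, rfl, rfl⟩
  rwa [pow_one, Nat.add_comm 1 m] at this

theorem theta_le_ker {N : Type} [Monoid N] (hN : ∀ x : N, x ^ (m + 1) = x)
    (φ : FreeMonoid A →* N) : theta A 1 m ≤ Con.ker φ := by
  refine Con.conGen_le.2 ?_
  rintro a b ⟨x, ha, hb⟩
  rw [Con.ker_rel, ha, hb, map_pow, map_pow, pow_one, Nat.add_comm 1 m, hN]

theorem quot_identity (x : (theta A 1 m).Quotient) : x ^ (m + 1) = x := by
  induction x using Con.induction_on with
  | H w =>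
    have h : (((w ^ (m + 1) : FreeMonoid A)) : (theta A 1 m).Quotient)
        = (w : (theta A 1 m).Quotient) ^ (m + 1) :=
      map_pow (theta A 1 m).mk' w (m + 1)
    rw [← h, Con.eq]
    exact (theta A 1 m).symm (theta_rel w)

/-- The evaluation of letters. -/
def ev (A : Type) (m : ℕ) (a : A) : (theta A 1 m).Quotient :=
  ((FreeMonoid.of a : FreeMonoid A) : (theta A 1 m).Quotient)

theorem ev_prod (l : List A) : (l.map (ev A m)).prod
    = ((FreeMonoid.ofList l : FreeMonoid A) : (theta A 1 m).Quotient) := by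
  induction l with
  | nil => rfl
  | cons a l ih =>
    rw [List.map_cons, List.prod_cons, ih, FreeMonoid.ofList_cons, Con.coe_mul]
    rfl

theorem ev_surj (x : (theta A 1 m).Quotient) : ∃ w : List A, (w.map (ev A m)).prod = x := by
  induction x using Con.induction_on with
  | H w => exact ⟨FreeMonoid.toList w, by rw [ev_prod, FreeMonoid.ofList_toList]⟩

open Classical in
/-- The marking homomorphism: the letter `a` is the mark. -/
noncomputable def markHom (m : ℕ) (a : A) : FreeMonoid A →* Ext (theta A 1 m).Quotient m :=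
  FreeMonoid.lift (fun c => if c = a then Ext.mid 1 0 1 else Ext.base (ev A m c))

theorem markHom_base (a : A) (u : List A) (hu : a ∉ u) :
    markHom m a (FreeMonoid.ofList u) = Ext.base ((u.map (ev A m)).prod) := by
  induction u with
  | nil => simp [Ext.one_def]
  | cons c u ih =>
    have hc : c ≠ a := by rintro rfl; simp at hu
    have hu' : a ∉ u := fun h => hu (by simp [h])
    rw [FreeMonoid.ofList_cons, map_mul, ih hu', markHom, FreeMonoid.lift_eval_of, if_neg hc,
      Ext.base_mul_base, List.map_cons, List.prod_cons]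

theorem markHom_of (a : A) : markHom m a (FreeMonoid.of a) = Ext.mid 1 0 1 := by
  rw [markHom, FreeMonoid.lift_eval_of, if_pos rfl]

theorem markHom_mid (a : A) (u : List A) (hu : a ∈ u) :
    ∃ s g t, markHom m a (FreeMonoid.ofList u) = Ext.mid s g t := by
  obtain ⟨l₁, l₂, h⟩ := List.append_of_mem hu
  rw [h, FreeMonoid.ofList_append, FreeMonoid.ofList_cons, map_mul, map_mul, markHom_of]
  rcases h1 : markHom m a (FreeMonoid.ofList l₁) with t1 | ⟨s1, g1, t1⟩ <;>
  rcases h2 : markHom m a (FreeMonoid.ofList l₂) with t2 | ⟨s2, g2, t2⟩ <;>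
  simp only [Ext.base_mul_mid, Ext.mid_mul_base, Ext.mid_mul_mid] <;>
  exact ⟨_, _, _, rfl⟩

/-- The map `u ↦ w a u a w` is injective on classes of words `u` avoiding `a`, if `a` occurs
in `w`. -/
theorem block_inj (hm : 1 < m) (a : A) (w u v : List A) (hw : a ∈ w) (hu : a ∉ u) (hv : a ∉ v)
    (h : ((w ++ a :: u ++ a :: w).map (ev A m)).prod = ((w ++ a :: v ++ a :: w).map (ev A m)).prod) :
    (u.map (ev A m)).prod = (v.map (ev A m)).prod := by
  classical
  rw [ev_prod, ev_prod, Con.eq] at h
  have h' := theta_le_ker (Ext.identity (fun x => quot_identity (A := A) (m := m) x)) (markHom m a) h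
  rw [Con.ker_rel] at h'
  obtain ⟨s, g, t, hs⟩ := markHom_mid (m := m) a w hw
  simp only [FreeMonoid.ofList_append, FreeMonoid.ofList_cons, map_mul, hs, markHom_of,
    markHom_base a u hu, markHom_base a v hv, Ext.mid_mul_mid, Ext.mid_mul_base,
    one_mul, mul_one] at h'
  injection h' with h1 h2 h3
  have h4 : Ext.sg m ((u.map (ev A m)).prod) = Ext.sg m ((v.map (ev A m)).prod) := by
    have := h2
    simpa using this
  exact Ext.sg_inj hm h4

end Words

section Finiteness

variable {S : Type} [Monoid S] {m : ℕ} {A : Type}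

theorem finite_step (hm : 0 < m) (hS : ∀ x : S, x ^ (m + 1) = x) (f : A → S) [DecidableEq A]
    (C : Finset A)
    (hfin : ∀ a ∈ C,
      {x : S | ∃ u : List A, (∀ c ∈ u, c ∈ C.erase a) ∧ (u.map f).prod = x}.Finite)
    (hJ : ∀ r l : S, {x : S | (∃ u : List A, (∀ a, a ∈ u ↔ a ∈ C) ∧ (u.map f).prod = x) ∧
      RR x r ∧ LL x l}.Finite) :
    {x : S | ∃ u : List A, (∀ c ∈ u, c ∈ C) ∧ (u.map f).prod = x}.Finite := by
  classical
  set P : Set S := ⋃ a ∈ C,
    {x : S | ∃ u : List A, (∀ c ∈ u, c ∈ C.erase a) ∧ (u.map f).prod = x} with hP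
  have hPf : P.Finite := Set.Finite.biUnion C.finite_toSet hfin
  set R : Set S := Set.image2 (fun s a => s * f a) P (C : Set A) with hR
  set L : Set S := Set.image2 (fun b t => f b * t) (C : Set A) P with hL
  have hRf : R.Finite := Set.Finite.image2 _ hPf C.finite_toSet
  have hLf : L.Finite := Set.Finite.image2 _ C.finite_toSet hPf
  have hU : (⋃ r ∈ R, ⋃ l ∈ L, {x : S | (∃ u : List A, (∀ a, a ∈ u ↔ a ∈ C) ∧
      (u.map f).prod = x) ∧ RR x r ∧ LL x l}).Finite :=
    Set.Finite.biUnion hRf fun r _ => Set.Finite.biUnion hLf fun l _ => hJ r l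
  refine ((((Set.finite_singleton (1 : S)).union hPf).union hU).subset ?_)
  rintro x ⟨w, hwC, rfl⟩
  by_cases hw : w = []
  · left; left; simp [hw]
  · by_cases hc : ∀ a ∈ C, a ∈ w
    · right
      obtain ⟨p, a, ha, hp, hRR⟩ := exists_RR hm hS f w hw
      obtain ⟨q, b, hb, hq, hLL⟩ := exists_LL hm hS f w hw
      simp only [Set.mem_iUnion]
      refine ⟨(p.map f).prod * f a, ?_, f b * (q.map f).prod, ?_,
        ⟨w, fun a => ⟨hwC a, hc a⟩, rfl⟩, hRR, hLL⟩
      · refine ⟨(p.map f).prod, ?_, a, hwC a ha, rfl⟩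
        rw [hP]
        simp only [Set.mem_iUnion]
        refine ⟨a, hwC a ha, p, ?_, rfl⟩
        intro c hc
        exact Finset.mem_erase.2 ⟨(hp c hc).2, hwC c (hp c hc).1⟩
      · refine ⟨b, hwC b hb, (q.map f).prod, ?_, rfl⟩
        rw [hP]
        simp only [Set.mem_iUnion]
        refine ⟨b, hwC b hb, q, ?_, rfl⟩
        intro c hc
        exact Finset.mem_erase.2 ⟨(hq c hc).2, hwC c (hq c hc).1⟩
    · push Not at hc
      obtain ⟨a, haC, haw⟩ := hc
      left; right
      rw [hP]
      simp only [Set.mem_iUnion]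
      refine ⟨a, haC, w, ?_, rfl⟩
      intro c hc
      refine Finset.mem_erase.2 ⟨?_, hwC c hc⟩
      rintro rfl; exact haw hc

/-- For `m = 1` (free bands) everything is finite. -/
theorem finite_band (hS : ∀ x : S, x ^ (1 + 1) = x) (f : A → S) [DecidableEq A]
    (C : Finset A) :
    {x : S | ∃ u : List A, (∀ c ∈ u, c ∈ C) ∧ (u.map f).prod = x}.Finite := by
  induction C using Finset.strongInduction with
  | H C ih =>
    refine finite_step one_pos hS f C (fun a ha => ih _ (Finset.erase_ssubset ha)) ?_
    intro r l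
    apply Set.Subsingleton.finite
    rintro x ⟨-, hx1, hx2⟩ y ⟨-, hy1, hy2⟩
    have := pow_eq one_pos hS (hx1.trans hy1.symm) (hx2.trans hy2.symm)
    simpa using this

end Finiteness

section Main

variable {A : Type} {m : ℕ}

/-- Main finiteness theorem. -/
theorem finite_content (hm : 0 < m) (w : List A)
    (hreg : ∃ (σ : Type) (_ : Fintype σ) (M : DFA A σ),
      M.accepts = {v : List A | (v.map (ev A m)).prod = (w.map (ev A m)).prod}) :
    {x : (theta A 1 m).Quotient | ∃ u : List A, (∀ a ∈ u, a ∈ w) ∧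
      (u.map (ev A m)).prod = x}.Finite := by
  classical
  have hS : ∀ x : (theta A 1 m).Quotient, x ^ (m + 1) = x := quot_identity
  rcases Nat.lt_or_ge 1 m with h1 | h1
  swap
  · obtain rfl : m = 1 := by omega
    have := finite_band hS (ev A 1) w.toFinset
    refine this.subset ?_
    rintro x ⟨u, hu, rfl⟩
    exact ⟨u, fun c hc => List.mem_toFinset.2 (hu c hc), rfl⟩
  have hH := finite_H hm hS (ev A m) ev_surj (w.map (ev A m)).prod hreg
  have hmain := finite_step hm hS (ev A m) w.toFinset ?_ ?_
  · refine hmain.subset ?_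
    rintro x ⟨u, hu, rfl⟩
    exact ⟨u, fun c hc => List.mem_toFinset.2 (hu c hc), rfl⟩
  · intro a ha
    rw [List.mem_toFinset] at ha
    refine Set.Finite.of_finite_image
      (f := fun x => (w.map (ev A m)).prod * ev A m a * x * ev A m a * (w.map (ev A m)).prod)
      (hH.subset ?_) ?_
    · rintro _ ⟨x, ⟨u, hu, rfl⟩, rfl⟩
      have hu' : ∀ c ∈ u, c ∈ w := fun c hc =>
        List.mem_toFinset.1 (Finset.mem_erase.1 (hu c hc)).2
      constructor
      · have := RR_append hm hS (ev A m) w (a :: u ++ a :: w) (by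
          intro c hc
          simp only [List.cons_append, List.mem_cons, List.mem_append] at hc
          rcases hc with rfl | hc | rfl | hc
          · exact ha
          · exact hu' c hc
          · exact ha
          · exact hc)
        simpa [mul_assoc] using this
      · have := LL_append hm hS (ev A m) w (w ++ a :: u ++ [a]) (by
          intro c hc
          simp only [List.cons_append, List.mem_cons, List.mem_append, List.append_assoc,
            List.not_mem_nil, or_false] at hc
          rcases hc with hc | rfl | hc | rfl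
          · exact hc
          · exact ha
          · exact hu' c hc
          · exact ha)
        simpa [mul_assoc] using this
    · rintro x ⟨u, hu, rfl⟩ y ⟨v, hv, rfl⟩ hxy
      refine block_inj h1 a w u v ha ?_ ?_ ?_
      · intro h; exact (Finset.mem_erase.1 (hu a h)).1 rfl
      · intro h; exact (Finset.mem_erase.1 (hv a h)).1 rfl
      · simpa [mul_assoc] using hxy
  · intro r l
    refine Set.Finite.of_finite_image
      (f := fun x => (w.map (ev A m)).prod * x * (w.map (ev A m)).prod)
      (hH.subset ?_) ?_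
    · rintro _ ⟨x, ⟨⟨u, hu, rfl⟩, -, -⟩, rfl⟩
      have hu' : ∀ c ∈ u, c ∈ w := fun c hc => List.mem_toFinset.1 ((hu c).1 hc)
      constructor
      · have := RR_append hm hS (ev A m) w (u ++ w) (by
          intro c hc
          rcases List.mem_append.1 hc with hc | hc
          · exact hu' c hc
          · exact hc)
        simpa [mul_assoc] using this
      · have := LL_append hm hS (ev A m) w (w ++ u) (by
          intro c hc
          rcases List.mem_append.1 hc with hc | hc
          · exact hc
          · exact hu' c hc)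
        simpa [mul_assoc] using this
    · rintro x ⟨⟨u, hu, rfl⟩, hx1, hx2⟩ y ⟨⟨v, hv, rfl⟩, hy1, hy2⟩ hxy
      exact sandwich_inj hm hS (ev A m) w u v
        (fun a => (hu a).trans List.mem_toFinset) (hx1.trans hy1.symm) (hx2.trans hy2.symm) hxy

open Classical in
/-- Killing (sending to zero) the letters outside the content of `w`. -/
noncomputable def zeroHom (m : ℕ) (w : FreeMonoid A) : FreeMonoid A →*
    WithZero (theta {c : A // c ∈ FreeMonoid.toList w} 1 m).Quotient :=
  FreeMonoid.lift (fun a => if h : a ∈ FreeMonoid.toList w then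
    ((ev {c : A // c ∈ FreeMonoid.toList w} m ⟨a, h⟩ :
      (theta {c : A // c ∈ FreeMonoid.toList w} 1 m).Quotient) :
      WithZero (theta {c : A // c ∈ FreeMonoid.toList w} 1 m).Quotient) else 0)

open Classical in
/-- Erasing the letters outside the content of `w`. -/
noncomputable def eraseHom (w : FreeMonoid A) : FreeMonoid A →*
    FreeMonoid {c : A // c ∈ FreeMonoid.toList w} :=
  FreeMonoid.lift (fun a => if h : a ∈ FreeMonoid.toList w then FreeMonoid.of ⟨a, h⟩ else 1)

/-- The inclusion of words. -/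
def incl (w : FreeMonoid A) : FreeMonoid {c : A // c ∈ FreeMonoid.toList w} →* FreeMonoid A :=
  FreeMonoid.map Subtype.val

theorem erase_incl (w : FreeMonoid A) (u : FreeMonoid {c : A // c ∈ FreeMonoid.toList w}) :
    eraseHom w (incl w u) = u := by
  have : (eraseHom w).comp (incl w) = MonoidHom.id _ := by
    apply FreeMonoid.hom_eq
    rintro ⟨a, ha⟩
    simp [eraseHom, incl, ha]
  exact DFunLike.congr_fun this u

theorem zero_incl (w : FreeMonoid A) (u : FreeMonoid {c : A // c ∈ FreeMonoid.toList w}) :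
    zeroHom m w (incl w u) = ((u : (theta {c : A // c ∈ FreeMonoid.toList w} 1 m).Quotient) :
      WithZero (theta {c : A // c ∈ FreeMonoid.toList w} 1 m).Quotient) := by
  induction u using FreeMonoid.recOn with
  | one => simp
  | of_mul a u ih =>
    rw [map_mul, map_mul, ih, Con.coe_mul, WithZero.coe_mul]
    congr 1
    obtain ⟨a, ha⟩ := a
    simp [zeroHom, incl, ha, ev]

theorem zero_spec (w : FreeMonoid A) (v : FreeMonoid A) :
    ∀ (q : (theta {c : A // c ∈ FreeMonoid.toList w} 1 m).Quotient)
    (_ : zeroHom m w v = (q : WithZero (theta {c : A // c ∈ FreeMonoid.toList w} 1 m).Quotient)),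
    ∃ u, incl w u = v ∧ ((u : FreeMonoid {c : A // c ∈ FreeMonoid.toList w}) :
      (theta {c : A // c ∈ FreeMonoid.toList w} 1 m).Quotient) = q := by
  induction v using FreeMonoid.recOn with
  | one =>
    intro q h
    refine ⟨1, map_one _, ?_⟩
    rw [map_one] at h
    exact WithZero.coe_injective h
  | of_mul a v ih =>
    intro q h
    rw [map_mul] at h
    by_cases ha : a ∈ FreeMonoid.toList w
    · have h1 : zeroHom m w (FreeMonoid.of a) =
        ((ev {c : A // c ∈ FreeMonoid.toList w} m ⟨a, ha⟩ :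
          (theta {c : A // c ∈ FreeMonoid.toList w} 1 m).Quotient) :
          WithZero (theta {c : A // c ∈ FreeMonoid.toList w} 1 m).Quotient) := by
        simp [zeroHom, ha]
      rw [h1] at h
      by_cases h0 : zeroHom m w v = 0
      · rw [h0, mul_zero] at h
        exact absurd h.symm WithZero.coe_ne_zero
      · obtain ⟨q', hq'⟩ := WithZero.ne_zero_iff_exists.1 h0
        obtain ⟨u, hu1, hu2⟩ := ih q' hq'.symm
        refine ⟨FreeMonoid.of ⟨a, ha⟩ * u, ?_, ?_⟩
        · rw [map_mul, hu1]
          congr 1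
        · rw [← hq', ← WithZero.coe_mul] at h
          rw [Con.coe_mul, hu2]
          exact WithZero.coe_injective h
    · have h1 : zeroHom m w (FreeMonoid.of a) = 0 := by
        simp [zeroHom, ha]
      rw [h1, zero_mul] at h
      exact absurd h.symm WithZero.coe_ne_zero

theorem zero_identity {Q : Type} [Monoid Q] (hQ : ∀ x : Q, x ^ (m + 1) = x) (x : WithZero Q) :
    x ^ (m + 1) = x := by
  by_cases h : x = 0
  · rw [h, zero_pow (by omega)]
  · obtain ⟨q, rfl⟩ := WithZero.ne_zero_iff_exists.1 h
    rw [← WithZero.coe_pow, hQ]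

theorem exists_incl (w : FreeMonoid A) (v : List A) (hv : ∀ a ∈ v, a ∈ FreeMonoid.toList w) :
    ∃ u, incl w u = FreeMonoid.ofList v := by
  induction v with
  | nil => exact ⟨1, map_one _⟩
  | cons a v ih =>
    obtain ⟨u, hu⟩ := ih (fun c hc => hv c (by simp [hc]))
    refine ⟨FreeMonoid.of ⟨a, hv a (by simp)⟩ * u, ?_⟩
    rw [map_mul, hu, FreeMonoid.ofList_cons]
    congr 1

end Main

/-- **Theorem.** Let `A` be a finite alphabet, `m ≥ 1` and `w ∈ A*` with set of letters `C`.
The class `[w]` of the congruence `θ_{1,m}` on `A*` is a regular language if and only if the free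
Burnside monoid `C*/θ_{1,m}` is finite. -/
theorem result : ∀ (A : Type) [Fintype A] (m : ℕ), 0 < m → ∀ w : FreeMonoid A,
    ((∃ (σ : Type) (_ : Fintype σ) (M : DFA A σ),
        M.accepts = {v : List A | theta A 1 m (FreeMonoid.ofList v) w}) ↔
      Finite (theta {c : A // c ∈ FreeMonoid.toList w} 1 m).Quotient) := by
  intro A _ m hm w
  constructor
  · intro hreg
    have hreg' : ∃ (σ : Type) (_ : Fintype σ) (M : DFA A σ),
        M.accepts = {v : List A | (v.map (ev A m)).prod
          = ((FreeMonoid.toList w).map (ev A m)).prod} := by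
      obtain ⟨σ, hσ, M, hM⟩ := hreg
      refine ⟨σ, hσ, M, ?_⟩
      rw [hM]
      ext v
      change theta A 1 m (FreeMonoid.ofList v) w ↔ (v.map (ev A m)).prod = _
      rw [ev_prod, ev_prod, FreeMonoid.ofList_toList, Con.eq]
    have hfin := finite_content hm (FreeMonoid.toList w) hreg'
    let ρ : (theta A 1 m).Quotient →* (theta {c : A // c ∈ FreeMonoid.toList w} 1 m).Quotient :=
      Con.lift (theta A 1 m)
        ((theta {c : A // c ∈ FreeMonoid.toList w} 1 m).mk'.comp (eraseHom w))
        (theta_le_ker quot_identity _)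
    have := hfin.image ρ
    rw [← Set.finite_univ_iff]
    refine this.subset ?_
    intro q _
    induction q using Con.induction_on with
    | H u =>
      refine ⟨((incl w u : FreeMonoid A) : (theta A 1 m).Quotient),
        ⟨FreeMonoid.toList (incl w u), ?_, ?_⟩, ?_⟩
      · intro a ha
        rw [incl, FreeMonoid.toList_map, List.mem_map] at ha
        obtain ⟨c, -, rfl⟩ := ha
        exact c.2
      · rw [ev_prod, FreeMonoid.ofList_toList]
      · change ((eraseHom w (incl w u) : FreeMonoid {c : A // c ∈ FreeMonoid.toList w}) :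
          (theta {c : A // c ∈ FreeMonoid.toList w} 1 m).Quotient) = _
        rw [erase_incl]
  · intro hfin
    have hfinZ : Finite (WithZero (theta {c : A // c ∈ FreeMonoid.toList w} 1 m).Quotient) :=
      inferInstanceAs (Finite (Option _))
    refine ⟨WithZero (theta {c : A // c ∈ FreeMonoid.toList w} 1 m).Quotient,
      Fintype.ofFinite _,
      { step := fun s a => s * zeroHom m w (FreeMonoid.of a), start := 1,
        accept := {zeroHom m w w} }, ?_⟩
    ext v
    rw [DFA.mem_accepts]
    have key : ∀ (v : List A) (s : WithZero (theta {c : A // c ∈ FreeMonoid.toList w} 1 m).Quotient),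
        (DFA.mk (fun s a => s * zeroHom m w (FreeMonoid.of a)) 1 {zeroHom m w w} :
          DFA A _).evalFrom s v = s * zeroHom m w (FreeMonoid.ofList v) := by
      intro v
      induction v with
      | nil => intro s; simp
      | cons a v ih =>
        intro s
        rw [DFA.evalFrom_cons, ih, FreeMonoid.ofList_cons, map_mul, mul_assoc]
    change (DFA.mk (fun s a => s * zeroHom m w (FreeMonoid.of a)) 1 {zeroHom m w w} :
      DFA A _).evalFrom 1 v ∈ ({zeroHom m w w} : Set _) ↔ theta A 1 m (FreeMonoid.ofList v) w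
    rw [key, one_mul, Set.mem_singleton_iff]
    obtain ⟨w', hw'⟩ := exists_incl w (FreeMonoid.toList w) (fun a ha => ha)
    rw [FreeMonoid.ofList_toList] at hw'
    have hθ : theta {c : A // c ∈ FreeMonoid.toList w} 1 m
        ≤ Con.ker ((theta A 1 m).mk'.comp (incl w)) := theta_le_ker quot_identity _
    constructor
    · intro h
      have h1 : zeroHom m w w = ((w' : (theta {c : A // c ∈ FreeMonoid.toList w} 1 m).Quotient) :
          WithZero (theta {c : A // c ∈ FreeMonoid.toList w} 1 m).Quotient) := by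
        have h2 := zero_incl (m := m) w w'
        rwa [hw'] at h2
      rw [h1] at h
      obtain ⟨u, hu1, hu2⟩ := zero_spec w (FreeMonoid.ofList v) _ h
      rw [Con.eq] at hu2
      have := hθ hu2
      rw [Con.ker_rel] at this
      change (((incl w u : FreeMonoid A)) : (theta A 1 m).Quotient)
        = ((incl w w' : FreeMonoid A) : (theta A 1 m).Quotient) at this
      rw [hu1, hw', Con.eq] at this
      exact this
    · intro h
      have := theta_le_ker (zero_identity quot_identity) (zeroHom m w) h
      rwa [Con.ker_rel] at this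

end Pool.Agent.Results.MP_604f1e_lc.ClassRegularIff
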