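import Mathlib
import Pool.Agent.Lib.MP_604f1e_lc.NTwo

set_option autoImplicit false

namespace Pool.Agent.Results.MP_604f1e_lc.TwoBurnside

/-- `theta A n m` is the monoid congruence `θ_{n,m}` on `A*`: the smallest congruence
containing all pairs `(x ^ n, x ^ (n + m))`. -/
def theta (A : Type) (n m : ℕ) : Con (FreeMonoid A) :=
  conGen (fun a b : FreeMonoid A => ∃ x : FreeMonoid A, a = x ^ n ∧ b = x ^ (n + m))

/-- Let `2 ≤ m`, let `θ = θ_{2,m}` be the smallest congruence on `{a,b}*` containing all pairs
`(x ^ 2, x ^ (2 + m))` (`a = false`, `b = true`).  If the class of the single word `(ababb) ^ m`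
is accepted by a finite automaton, then every group of exponent dividing `m` which is generated
by three elements is finite. -/
theorem result (m : ℕ) (hm : 2 ≤ m)
    (hreg : ∃ (σ : Type) (_ : Fintype σ) (D : DFA Bool σ),
      D.accepts = {v : List Bool | theta Bool 2 m (FreeMonoid.ofList v)
        (FreeMonoid.ofList [false, true, false, true, true] ^ m)})
    (G : Type) [Group G] (hG : ∀ g : G, g ^ m = 1)
    (hgen : ∃ t x y : G, Subgroup.closure {t, x, y} = ⊤) : Finite G := by
  obtain ⟨σ, hσ, D, hD⟩ := hreg
  obtain ⟨t, x, y, h⟩ := hgen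
  exact Pool.Agent.Lib.MP_604f1e_lc.NTwo.finite_of_regular hm hG t x y h σ D
    (fun v => by rw [hD]; rfl)

end Pool.Agent.Results.MP_604f1e_lc.TwoBurnside
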